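import Pool.Agent.H5.EH.Main

set_option autoImplicit false

namespace Pool.Agent.Results.MP_633f17_co.EvenGaps

open Pool.Agent.H23.TS

/-- For every even gap `2r` there is `N` such that for all `t`, `s` with `t + s ≥ N`, at `n = t + s + 2r`: `m(n,t,s)` is the
maximum over `0 ≤ u ≤ r` of `(∑_{a ≤ u} C(t+2u, a)) (∑_{b ≤ r-u} C(s+2(r-u), b))`, and the product bound
`|F||G| ≤ m(n,t,s)^2` holds for all cross-`(t,s)` families. -/
theorem result (r : ℕ) : ∃ N : ℕ, ∀ t s : ℕ, N ≤ t + s →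
    mTS (t + s + 2 * r) t s = (Finset.range (r + 1)).sup (fun u =>
      (∑ a ∈ Finset.range (u + 1), (t + 2 * u).choose a) *
        ∑ b ∈ Finset.range (r - u + 1), (s + 2 * (r - u)).choose b) ∧
    ∀ F G : Finset (Finset (Fin (t + s + 2 * r))), CrossTS (t + s + 2 * r) t s F G →
      F.card * G.card ≤ mTS (t + s + 2 * r) t s ^ 2 :=
  Pool.Agent.H5.EH.final r

end Pool.Agent.Results.MP_633f17_co.EvenGaps
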