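import Mathlib
import Pool.Agent.H23.TSDefs
import Pool.Agent.H23.TSOne

set_option autoImplicit false

namespace Pool.Agent.Results.MP_633f17_co.ExactGapOne

open Pool.Agent.H23.TS

/-- The case `n = t + s + 1`, exactly: `m(n,t,s) = 2`, while the maximum of `|F||G|` over
cross-`(t,s)` families is `max 4 (t+2) (s+2)`; hence the product bound holds for this `n` precisely
when `t ≤ 2` and `s ≤ 2`. -/
theorem result (t s : ℕ) (_ht : 1 ≤ t) (_hs : 1 ≤ s) :
    mTS (t + s + 1) t s = 2 ∧
    IsGreatest {p : ℕ | ∃ F G : Finset (Finset (Fin (t + s + 1))),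
      CrossTS (t + s + 1) t s F G ∧ F.card * G.card = p} (max 4 (max (t + 2) (s + 2))) ∧
    ((∀ F G : Finset (Finset (Fin (t + s + 1))), CrossTS (t + s + 1) t s F G →
      F.card * G.card ≤ mTS (t + s + 1) t s ^ 2) ↔ (t ≤ 2 ∧ s ≤ 2)) := by
  refine ⟨mTS_one t s, one_max t s, ?_⟩
  obtain ⟨⟨F, G, hFG, hc⟩, hub⟩ := one_max t s
  rw [mTS_one]
  constructor
  · intro h
    have := h F G hFG
    rw [hc] at this
    have h1 := le_trans (le_max_left (t + 2) (s + 2)) (le_max_right 4 (max (t + 2) (s + 2)))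
    have h2 := le_trans (le_max_right (t + 2) (s + 2)) (le_max_right 4 (max (t + 2) (s + 2)))
    omega
  · rintro ⟨h1, h2⟩ F' G' h
    have := hub ⟨F', G', h, rfl⟩
    have h3 : max 4 (max (t + 2) (s + 2)) ≤ 4 := by
      rw [max_le_iff, max_le_iff]; omega
    omega

end Pool.Agent.Results.MP_633f17_co.ExactGapOne
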