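import Mathlib
import Pool.Agent.H23.TSDefs
import Pool.Agent.H23.TSOdd

set_option autoImplicit false

namespace Pool.Agent.Results.MP_633f17_co.OddGapDisproof

open Pool.Agent.H23.TS

/-- Disproof of the product bound `|F||G| ≤ m(n,t,s)^2` for cross-`(t,s)` families: for every odd
`k = 2j+1` and every constant `C` there is a `T` such that for all positive `t`, `s` with
`t + s ≥ T`, at `n = t + s + k` there are cross-`(t,s)` families with `|F||G| > C m(n,t,s)^2`. -/
theorem result (j C : ℕ) : ∃ T : ℕ, ∀ t s : ℕ, 1 ≤ t → 1 ≤ s → T ≤ t + s →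
    ∃ F G : Finset (Finset (Fin (t + s + (2 * j + 1)))),
      CrossTS (t + s + (2 * j + 1)) t s F G ∧
      C * mTS (t + s + (2 * j + 1)) t s ^ 2 < F.card * G.card := by
  obtain ⟨T, hT⟩ := odd_gap j C
  exact ⟨T, fun t s _ _ h => hT t s h⟩

end Pool.Agent.Results.MP_633f17_co.OddGapDisproof
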