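import Mathlib
import Pool.Agent.H23.TSDefs
import Pool.Agent.H30.KF.Asm

set_option autoImplicit false

namespace Pool.Agent.Results.MP_633f17_co.QuadraticRange

open Pool.Agent.H23.TS

/-- For all `t` and all `n` of the parity of `t` with `t < n < t ^ 2` the product bound
`|F||G| ≤ m(n,t,1) ^ 2` fails for cross-`(t,1)` families, and `|F||G| ≤ m(n,1,t) ^ 2` fails for
cross-`(1,t)` families. -/
theorem result (t n : ℕ) (h1 : t < n) (h2 : n < t ^ 2) (h3 : n % 2 = t % 2) :
    (∃ F G : Finset (Finset (Fin n)), CrossTS n t 1 F G ∧ mTS n t 1 ^ 2 < F.card * G.card) ∧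
    ∃ F G : Finset (Finset (Fin n)), CrossTS n 1 t F G ∧ mTS n 1 t ^ 2 < F.card * G.card :=
  ⟨Pool.Agent.H30.KF.s_one t n h1 h2 h3, Pool.Agent.H30.KF.t_one t n h1 h2 h3⟩

end Pool.Agent.Results.MP_633f17_co.QuadraticRange
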